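import Pool.Agent.H75.AX.Assemble
import Pool.Agent.H75.AX.KFin
import Pool.Agent.H82.AX.J5
import Pool.Agent.H82.AX.J6

/-!
Topological rigidity fails for closed, connected, aspherical three-dimensional Alexandrov spaces.

Let `P` be a certain simple polytope in `ℝ³` with 19 facets: six caps of three colours (two of each),
four vertices of `P` being the intersection of three caps, a twelve-gon and a belt of twelve more
facets around it. The spaces `X` and `Y` are quotients by a group of order 32 of the closed real
moment-angle manifold `M = {(u, y) ∈ ℝ³ × ℝ¹⁹ : y_v² = ℓ_v(u)}`, with the quotient of the intrinsic
metric; the only fixed points lie over the four special vertices, where the stabilizer acts by `-1`,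
so `X` and `Y` are Alexandrov spaces without boundary with isolated singular points. The
two groups differ only in the way two facets of the belt are identified in the colouring.

* Both spaces are basic constructions with group `(ℤ/2)¹²` over contractible mirrored spaces (the
  union of four chambers) with the same flag nerve, hence aspherical and homotopy equivalent.
* `X` has a map from its regular part to the projective plane which is odd at exactly four singular
  points, and `Y` has no such map, by a parity argument on the transport signs.
-/

set_option autoImplicit false

namespace Pool.Agent.Results.MP_c5ac80_gt.RigidityFails

open Pool.Agent.H75.AX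

/-- There are two closed, connected, aspherical three-dimensional Alexandrov spaces which are
homotopy equivalent but not homeomorphic. -/
theorem result : ∃ (X Y : Type) (_ : MetricSpace X) (_ : MetricSpace Y),
    IsClosedAlexandrov3 X ∧ IsClosedAlexandrov3 Y ∧ IsAspherical X ∧ IsAspherical Y ∧
    Nonempty (ContinuousMap.HomotopyEquiv X Y) ∧ ¬ Nonempty (X ≃ₜ Y) :=
  target_of Pool.Agent.H82.AX.J5 Pool.Agent.H82.AX.J6 specK

end Pool.Agent.Results.MP_c5ac80_gt.RigidityFails
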